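import Pool.Agent.R713.Concrete

/-!
# MP_b3a6b1_al, Q2: a diagonalizable third Askey-Wilson element that does not give a Leonard triple
-/

set_option autoImplicit false

namespace Pool.Agent.Results.MP_b3a6b1_al.DiagonalizableNotTriple

open Pool.Agent.R713 Module Matrix

/-- the two Askey-Wilson relations for `B, C` with given scalars -/
def AWRel {K R : Type*} [Field K] [Ring R] [Algebra K R] (B C : R)
    (β γ γs r rs ω η ηs : K) : Prop :=
  B ^ 2 * C - β • (B * C * B) + C * B ^ 2 - γ • (B * C + C * B) - r • C =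
    γs • B ^ 2 + ω • B + η • (1 : R) ∧
  C ^ 2 * B - β • (C * B * C) + B * C ^ 2 - γs • (C * B + B * C) - rs • B =
    γ • C ^ 2 + ω • C + ηs • (1 : R)

/-- `B, C` satisfies the Askey-Wilson relations -/
def SatisfiesAW {K V : Type*} [Field K] [AddCommGroup V] [Module K V] (B C : Module.End K V) :
    Prop :=
  ∃ β γ γs r rs ω η ηs : K, AWRel B C β γ γs r rs ω η ηs

/-- `T` is in the span of `I, X, Y, X Y, Y X` -/
def InSpan5 {K V : Type*} [Field K] [AddCommGroup V] [Module K V] (X Y T : Module.End K V) :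
    Prop :=
  ∃ a b c e f : K, T = a • 1 + b • X + c • Y + e • (X * Y) + f • (Y * X)

/-- conditions (i)-(iv) of the problem, for `A, B = A^*, C = A^ε` -/
structure Conditions {K V : Type*} [Field K] [AddCommGroup V] [Module K V]
    (A B C : Module.End K V) : Prop where
  i : InSpan5 A B C
  ii : InSpan5 B C A
  iii : InSpan5 C A B
  iv1 : SatisfiesAW A B
  iv2 : SatisfiesAW B C
  iv3 : SatisfiesAW A C

/-- some basis makes the matrix of `C` diagonal -/
def Diagonalizable {K V : Type*} [Field K] [AddCommGroup V] [Module K V] (C : Module.End K V) :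
    Prop :=
  ∃ (n : ℕ) (b : Basis (Fin n) K V), (LinearMap.toMatrix b b C).IsDiag

theorem AWRel.map {K R S : Type*} [Field K] [Ring R] [Algebra K R] [Ring S] [Algebra K S]
    (f : R →ₐ[K] S) {B C : R} {β γ γs r rs ω η ηs : K} (h : AWRel B C β γ γs r rs ω η ηs) :
    AWRel (f B) (f C) β γ γs r rs ω η ηs := by
  obtain ⟨h1, h2⟩ := h
  refine ⟨?_, ?_⟩
  · have := congrArg f h1
    simpa only [map_sub, map_add, map_mul, map_pow, map_smul, map_one] using this
  · have := congrArg f h2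
    simpa only [map_sub, map_add, map_mul, map_pow, map_smul, map_one] using this

def tC : Fin 3 → ℚ := ![-1, 0, 1]
def MA : Matrix (Fin 3) (Fin 3) ℚ := !![3, 4, 4; -2, -3, -4; 1, 2, 4]
def MB : Matrix (Fin 3) (Fin 3) ℚ := !![4, 4, 4; -2, -3, -4; 1, 2, 3]
def PA : Matrix (Fin 3) (Fin 3) ℚ := !![4, -2, 1; -4, 1, -1; 1, 0, 1]
def QA : Matrix (Fin 3) (Fin 3) ℚ := !![-1/3, -2/3, -1/3; -1, -1, 0; 1/3, 2/3, 4/3]
def PB : Matrix (Fin 3) (Fin 3) ℚ := !![1, 0, 4; -2, -1, -2; 1, 1, 1]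
def QB : Matrix (Fin 3) (Fin 3) ℚ := !![-1/3, -4/3, -4/3; 0, 1, 2; 1/3, 1/3, 1/3]

theorem AB : LeonardPair (Matrix.toLin' MA) (Matrix.toLin' MB) := by
  constructor
  · refine DiagTridiag.of_matrix (by norm_num) _ _ PA QA (by decide +kernel) ?_ ?_
    · unfold Matrix.IsDiag Pairwise
      decide +kernel
    · unfold IrrTridiag
      decide +kernel
  · refine DiagTridiag.of_matrix (by norm_num) _ _ PB QB (by decide +kernel) ?_ ?_
    · unfold Matrix.IsDiag Pairwise
      decide +kernel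
    · unfold IrrTridiag
      decide +kernel

theorem awAB : AWRel MA MB (-1) 4 4 (-3) (-3) (-7) (-3) (-3 : ℚ) := by
  refine ⟨?_, ?_⟩ <;> decide +kernel

theorem awAC : AWRel MA (Matrix.diagonal tC) (-1) 4 0 (-3) 1 1 3 (3 : ℚ) := by
  refine ⟨?_, ?_⟩ <;> decide +kernel

theorem awBC : AWRel MB (Matrix.diagonal tC) (-1) 4 0 (-3) 1 (-1) (-3) (3 : ℚ) := by
  refine ⟨?_, ?_⟩ <;> decide +kernel

theorem relABC : Matrix.toLin' MA = Matrix.toLin' MB + Matrix.toLin' (Matrix.diagonal tC) := by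
  rw [← map_add]
  congr 1
  decide +kernel

theorem cond : Conditions (Matrix.toLin' MA) (Matrix.toLin' MB)
    (Matrix.toLin' (Matrix.diagonal tC)) where
  i := ⟨0, 1, -1, 0, 0, by rw [relABC]; module⟩
  ii := ⟨0, 1, 1, 0, 0, by rw [relABC]; module⟩
  iii := ⟨0, -1, 1, 0, 0, by rw [relABC]; module⟩
  iv1 := ⟨_, _, _, _, _, _, _, _,
    awAB.map (Matrix.toLinAlgEquiv' : Matrix (Fin 3) (Fin 3) ℚ ≃ₐ[ℚ] _).toAlgHom⟩
  iv2 := ⟨_, _, _, _, _, _, _, _,
    awBC.map (Matrix.toLinAlgEquiv' : Matrix (Fin 3) (Fin 3) ℚ ≃ₐ[ℚ] _).toAlgHom⟩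
  iv3 := ⟨_, _, _, _, _, _, _, _,
    awAC.map (Matrix.toLinAlgEquiv' : Matrix (Fin 3) (Fin 3) ℚ ≃ₐ[ℚ] _).toAlgHom⟩

theorem diag : Diagonalizable (Matrix.toLin' (Matrix.diagonal tC)) :=
  ⟨3, colBasis 1 1 (mul_one _), by
    rw [toMatrix_colBasis, one_mul, mul_one]
    exact Matrix.isDiag_diagonal _⟩

theorem not_triple : ¬ LeonardTriple (Matrix.toLin' MA) (Matrix.toLin' MB)
    (Matrix.toLin' (Matrix.diagonal tC)) := by
  intro h
  obtain ⟨σ, hσ⟩ := h.2.2.perm tC (by decide +kernel)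
  have h1 := ((hσ 0 2).1 (by left; decide)).1
  have h2 : ∀ i j : Fin 3, MA i j ≠ 0 := by
    intro i j
    fin_cases i <;> fin_cases j <;> simp [MA]
  exact h2 _ _ h1

theorem result : ∃ A B C : Module.End ℚ (Fin 3 → ℚ), LeonardPair A B ∧ Conditions A B C ∧
    Diagonalizable C ∧ ¬ LeonardTriple A B C :=
  ⟨_, _, _, AB, cond, diag, not_triple⟩

end Pool.Agent.Results.MP_b3a6b1_al.DiagonalizableNotTriple
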